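import Mathlib

set_option autoImplicit false

namespace Pool.Agent.Results.MP_bc0e65_co.Periods

/-- A short impartial game: a finite family of options. -/
inductive Game : Type
  | mk : (n : ℕ) → (Fin n → Game) → Game

/-- `IsOpt K G`: K is an option of G. -/
def IsOpt (K : Game) : Game → Prop
  | Game.mk _ f => ∃ i, f i = K

/-- Misere outcome P: G has an option and no option of G has outcome P. -/
def IsP : Game → Prop
  | Game.mk n f => n ≠ 0 ∧ ∀ i, ¬ IsP (f i)

/-- Disjunctive sum: the options of G + H are the G' + H and the G + H'. -/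
noncomputable def add : Game → Game → Game
  | Game.mk n f => fun H => Game.rec (motive := fun _ => Game)
      (fun m g ih => Game.mk (n + m) (Fin.addCases (fun i => add (f i) (Game.mk m g)) ih)) H

/-- The sum of k copies of x. -/
noncomputable def mul (x : Game) : ℕ → Game
  | 0 => Game.mk 0 Fin.elim0
  | k + 1 => add (mul x k) x

/-- Closed under sums and options. -/
def Closed (A : Set Game) : Prop :=
  (∀ G ∈ A, ∀ H ∈ A, add G H ∈ A) ∧ ∀ G ∈ A, ∀ K, IsOpt K G → K ∈ A

/-- Indistinguishability modulo A. -/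
def Eqv (A : Set Game) (H K : Game) : Prop := ∀ X ∈ A, (IsP (add H X) ↔ IsP (add K X))

/-- The class of x in the misere quotient of A has period p. -/
def HasPeriod (A : Set Game) (x : Game) (p : ℕ) : Prop :=
  IsLeast {q | 1 ≤ q ∧ ∃ m, 1 ≤ m ∧ Eqv A (mul x (m + q)) (mul x m)} p

theorem add_mk (n m : ℕ) (f : Fin n → Game) (g : Fin m → Game) :
    add (Game.mk n f) (Game.mk m g) = Game.mk (n + m)
      (Fin.addCases (fun i => add (f i) (Game.mk m g)) fun j => add (Game.mk n f) (g j)) := rfl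

abbrev V := Fin 4 → ℕ

def e (i : Fin 4) : V := Pi.single i 1

def Mv (L : Fin 4 → List V) (v w : V) : Prop := ∃ i, ∃ o ∈ L i, ∃ u, v = e i + u ∧ w = o + u

def Rep (L : Fin 4 → List V) : Game → V → Prop
  | Game.mk _ f, v => (∀ i, ∃ w, Mv L v w ∧ Rep L (f i) w) ∧ ∀ w, Mv L v w → ∃ i, Rep L (f i) w

theorem mv_add {L : Fin 4 → List V} {v v' w : V} (h : Mv L (v + v') w) :
    (∃ w1, Mv L v w1 ∧ w = w1 + v') ∨ ∃ w1, Mv L v' w1 ∧ w = v + w1 := by
  obtain ⟨i, o, ho, u, h1, rfl⟩ := h
  have key : ∀ a b : V, a + b = e i + u → a i ≠ 0 → ∃ w1, Mv L a w1 ∧ o + u = w1 + b := by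
    intro a b hab ha
    have hle : ∀ j, e i j ≤ a j := by
      intro j
      by_cases c : j = i
      · subst c; simp only [e, Pi.single_eq_same]; omega
      · simp [e, c]
    refine ⟨o + (a - e i), ⟨i, o, ho, a - e i, ?_, rfl⟩, ?_⟩
    · funext j; have := hle j; simp only [Pi.add_apply, Pi.sub_apply]; omega
    · funext j
      have := hle j
      have h2 := congrFun hab j
      simp only [Pi.add_apply, Pi.sub_apply] at h2 ⊢; omega
  by_cases c : v i = 0
  · right
    have h2 := congrFun h1 i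
    simp only [Pi.add_apply, e, Pi.single_eq_same] at h2
    obtain ⟨w1, a, b⟩ := key v' v (by rw [add_comm]; exact h1) (by omega)
    exact ⟨w1, a, by rw [b, add_comm]⟩
  · exact Or.inl (key v v' h1 c)

theorem mv_left {L : Fin 4 → List V} {v w : V} (h : Mv L v w) (v' : V) : Mv L (v + v') (w + v') := by
  obtain ⟨i, o, ho, u, rfl, rfl⟩ := h
  exact ⟨i, o, ho, u + v', add_assoc _ _ _, add_assoc _ _ _⟩

theorem rep_add {L : Fin 4 → List V} (G : Game) : ∀ (H : Game) (v v' : V), Rep L G v → Rep L H v' →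
    Rep L (add G H) (v + v') := by
  induction G with
  | mk n f ihG =>
    intro H
    induction H with
    | mk m g ihH =>
      intro v v' h1 h2
      rw [add_mk]
      constructor
      · intro i
        refine Fin.addCases (fun i => ?_) (fun j => ?_) i
        · obtain ⟨w, a, b⟩ := h1.1 i
          refine ⟨w + v', mv_left a v', ?_⟩
          simp only [Fin.addCases_left]
          exact ihG i _ _ _ b h2
        · obtain ⟨w, a, b⟩ := h2.1 j
          refine ⟨v + w, by rw [add_comm v, add_comm v]; exact mv_left a v, ?_⟩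
          simp only [Fin.addCases_right]
          exact ihH j _ _ h1 b
      · intro w hw
        rcases mv_add hw with ⟨w1, a, rfl⟩ | ⟨w1, a, rfl⟩
        · obtain ⟨i, b⟩ := h1.2 w1 a
          refine ⟨Fin.castAdd m i, ?_⟩
          simp only [Fin.addCases_left]
          exact ihG i _ _ _ b h2
        · obtain ⟨j, b⟩ := h2.2 w1 a
          refine ⟨Fin.natAdd n j, ?_⟩
          simp only [Fin.addCases_right]
          exact ihH j _ _ h1 b

theorem e_ne (i : Fin 4) (u : V) : (0 : V) ≠ e i + u := by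
  intro h
  have := congrFun h i
  simp only [Pi.add_apply, e, Pi.single_eq_same, Pi.zero_apply] at this
  omega

theorem rep_zero (L : Fin 4 → List V) : Rep L (Game.mk 0 Fin.elim0) 0 :=
  ⟨fun i => i.elim0, fun _ ⟨i, _, _, u, h, _⟩ => absurd h (e_ne i u)⟩

theorem rep_mul {L : Fin 4 → List V} {x : Game} {v : V} (h : Rep L x v) (k : ℕ) :
    Rep L (mul x k) (k • v) := by
  induction k with
  | zero => rw [zero_smul]; exact rep_zero L
  | succ k ih => rw [succ_nsmul]; exact rep_add _ _ _ _ ih h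

theorem rep_gen {L : Fin 4 → List V} (i : Fin 4) (h : ∀ o ∈ L i, ∃ G, Rep L G o) :
    ∃ G, Rep L G (e i) := by
  choose g hg using h
  refine ⟨Game.mk (L i).length fun j => g ((L i).get j) (List.get_mem _ _), fun j => ?_, ?_⟩
  · exact ⟨(L i).get j, ⟨i, (L i).get j, List.get_mem _ _, 0, by simp, by simp⟩, hg _ _⟩
  · rintro w ⟨k, o, ho, u, h1, rfl⟩
    have hk : k = i := by
      by_contra c
      have := congrFun h1 k
      simp only [Pi.add_apply, e, Pi.single_eq_same, Pi.single_eq_of_ne c] at this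
      omega
    subst hk
    have hu : u = 0 := by simpa using h1
    subst hu
    obtain ⟨j, rfl⟩ := List.get_of_mem ho
    exact ⟨j, by rw [add_zero]; exact hg _ _⟩

theorem rep_all {L : Fin 4 → List V} (hL : ∀ i, ∀ o ∈ L i, ∀ j, i ≤ j → o j = 0) (v : V) :
    ∃ G, Rep L G v := by
  have key : ∀ n : ℕ, ∀ v : V, (∀ j : Fin 4, n ≤ j.val → v j = 0) → ∃ G, Rep L G v := by
    intro n
    induction n with
    | zero =>
      intro v hv
      have : v = 0 := funext fun j => hv j (Nat.zero_le _)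
      exact ⟨_, this ▸ rep_zero L⟩
    | succ n ih =>
      intro v hv
      by_cases hn : n < 4
      · obtain ⟨x, hx⟩ := rep_gen (L := L) ⟨n, hn⟩ fun o ho => ih o fun j hj => hL _ o ho j hj
        obtain ⟨y, hy⟩ := ih (Function.update v ⟨n, hn⟩ 0) (by
          intro j hj
          by_cases c : j = ⟨n, hn⟩
          · subst c; simp
          · rw [Function.update_of_ne c]
            apply hv
            have : j.val ≠ n := fun h => c (Fin.ext h)
            omega)
        refine ⟨add y (mul x (v ⟨n, hn⟩)), ?_⟩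
        have := rep_add _ _ _ _ hy (rep_mul hx (v ⟨n, hn⟩))
        have e2 : Function.update v ⟨n, hn⟩ 0 + v ⟨n, hn⟩ • e ⟨n, hn⟩ = v := by
          funext j
          by_cases c : j = ⟨n, hn⟩
          · subst c; simp [e]
          · simp [e, c]
        rwa [e2] at this
      · exact ih v fun j hj => by have := j.2; omega
  exact key 4 v fun j hj => by have := j.2; omega

def r (M p n : ℕ) : ℕ := if n < M then n else M + (n - M) % p
def ex (M p n : ℕ) : ℕ := if n ≤ M then n else M + 1 + (n - M - 1) % p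

theorem r_ex (M p n s k : ℕ) (hs : s ≤ 1) : r M p (ex M p n - s + k) = r M p (n - s + k) := by
  unfold ex
  split_ifs with h
  · rfl
  · obtain ⟨t, rfl⟩ : ∃ t, n = M + 1 + t := ⟨n - M - 1, by omega⟩
    have e1 : M + 1 + t - M - 1 = t := by omega
    rw [e1]
    unfold r
    rw [if_neg (by omega), if_neg (by omega)]
    have e2 : M + 1 + t % p - s + k - M = (1 - s + k) + t % p := by omega
    have e3 : M + 1 + t - s + k - M = (1 - s + k) + t := by omega
    rw [e2, e3, Nat.add_mod_mod]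

theorem ex_lt (M p n : ℕ) (hp : 0 < p) : ex M p n < M + p + 1 := by
  unfold ex
  have := Nat.mod_lt (n - M - 1) hp
  split_ifs <;> omega

theorem ex_ne (M p n : ℕ) : ex M p n ≠ 0 ↔ n ≠ 0 := by
  unfold ex
  split_ifs <;> omega

def F (N : ℕ) (M p : V) (v : V) : Bool :=
  N.testBit (((r (M 0) (p 0) (v 0) * (M 1 + p 1) + r (M 1) (p 1) (v 1)) * (M 2 + p 2) +
    r (M 2) (p 2) (v 2)) * (M 3 + p 3) + r (M 3) (p 3) (v 3))

def chk (L : Fin 4 → List V) (N : ℕ) (M p : V) (v : V) : Prop :=
  F N M p v = true ↔ (∃ i, v i ≠ 0) ∧ ∀ i, v i ≠ 0 → ∀ o ∈ L i,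
    F N M p (fun j => v j - (if j = i then 1 else 0) + o j) = false

instance (L : Fin 4 → List V) (N : ℕ) (M p : V) (v : V) : Decidable (chk L N M p v) := by
  unfold chk; infer_instance

theorem chk_all {L : Fin 4 → List V} {N : ℕ} {M p : V} (hp : ∀ i, 0 < p i)
    (h : ∀ a < M 0 + p 0 + 1, ∀ b < M 1 + p 1 + 1, ∀ c < M 2 + p 2 + 1, ∀ d < M 3 + p 3 + 1,
      chk L N M p ![a, b, c, d]) (v : V) : chk L N M p v := by
  have := h _ (ex_lt (M 0) (p 0) (v 0) (hp 0)) _ (ex_lt (M 1) (p 1) (v 1) (hp 1))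
    _ (ex_lt (M 2) (p 2) (v 2) (hp 2)) _ (ex_lt (M 3) (p 3) (v 3) (hp 3))
  have e1 : (![ex (M 0) (p 0) (v 0), ex (M 1) (p 1) (v 1), ex (M 2) (p 2) (v 2),
      ex (M 3) (p 3) (v 3)] : V) = fun j => ex (M j) (p j) (v j) := by
    funext j; fin_cases j <;> rfl
  rw [e1] at this
  have k1 : ∀ s k : V, (∀ j, s j ≤ 1) → F N M p (fun j => ex (M j) (p j) (v j) - s j + k j) =
      F N M p (fun j => v j - s j + k j) := by
    intro s k hs
    simp only [F, r_ex _ _ _ _ _ (hs _)]
  have k2 : F N M p (fun j => ex (M j) (p j) (v j)) = F N M p v := k1 0 0 (fun _ => Nat.zero_le _)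
  have k3 : ∀ (i : Fin 4) (o : V), F N M p (fun j => ex (M j) (p j) (v j) -
      (if j = i then 1 else 0) + o j) = F N M p (fun j => v j - (if j = i then 1 else 0) + o j) :=
    fun i o => k1 (fun j => if j = i then 1 else 0) o fun j => by split_ifs <;> omega
  unfold chk at this ⊢
  simp only [k2, k3, ex_ne] at this
  exact this

theorem outcome {L : Fin 4 → List V} {N : ℕ} {M p : V} (hne : ∀ i, L i ≠ [])
    (h : ∀ v, chk L N M p v) (G : Game) : ∀ v, Rep L G v → (IsP G ↔ F N M p v = true) := by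
  induction G with
  | mk n f ih =>
    intro v hv
    rw [show F N M p v = true ↔ _ from h v]
    have mk : ∀ i, v i ≠ 0 → ∀ o ∈ L i, Mv L v fun j => v j - (if j = i then 1 else 0) + o j := by
      intro i hi o ho
      refine ⟨i, o, ho, fun j => v j - (if j = i then 1 else 0), ?_, ?_⟩
      · funext j
        by_cases c : j = i
        · subst c; simp only [Pi.add_apply, e, Pi.single_eq_same, if_true]; omega
        · simp [e, c]
      · funext j; simp only [Pi.add_apply]; omega
    have un : ∀ w, Mv L v w → ∃ i, v i ≠ 0 ∧ ∃ o ∈ L i,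
        w = fun j => v j - (if j = i then 1 else 0) + o j := by
      rintro w ⟨i, o, ho, u, rfl, rfl⟩
      refine ⟨i, by simp [e], o, ho, ?_⟩
      funext j
      by_cases c : j = i
      · subst c; simp only [Pi.add_apply, e, Pi.single_eq_same, if_true]; omega
      · simp [e, c, add_comm]
    constructor
    · rintro ⟨h0, h1⟩
      constructor
      · obtain ⟨w, a, _⟩ := hv.1 ⟨0, Nat.pos_of_ne_zero h0⟩
        obtain ⟨i, b, _⟩ := un w a
        exact ⟨i, b⟩
      · intro i hi o ho
        obtain ⟨j, b⟩ := hv.2 _ (mk i hi o ho)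
        have := h1 j
        rw [ih j _ b] at this
        simpa using this
    · rintro ⟨⟨i, hi⟩, h1⟩
      constructor
      · obtain ⟨o, ho⟩ := List.exists_mem_of_ne_nil _ (hne i)
        obtain ⟨j, _⟩ := hv.2 _ (mk i hi o ho)
        have := j.2; omega
      · intro j
        obtain ⟨w, a, b⟩ := hv.1 j
        obtain ⟨i, c, o, ho, rfl⟩ := un w a
        rw [ih j _ b, h1 i c o ho]; simp

theorem main {L : Fin 4 → List V} {N : ℕ} {M p : V} (hL : ∀ i, ∀ o ∈ L i, ∀ j, i ≤ j → o j = 0)
    (hne : ∀ i, L i ≠ []) (h : ∀ v, chk L N M p v) (hM : M 3 = 0) (c q : ℕ) (hq : 1 ≤ q)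
    (hc : p 3 = c * q)
    (hmin : ∀ q' < q, 1 ≤ q' → ∃ j < c * q,
      F N M p ![0, 0, 0, c * q' + j] ≠ F N M p ![0, 0, 0, j]) :
    ∃ A : Set Game, Closed A ∧ ∃ x ∈ A, HasPeriod A x q := by
  obtain ⟨x, hx⟩ := rep_all hL (c • e 3)
  have per : ∀ (v : V) (k : ℕ), F N M p ((k * q) • c • e 3 + v) = F N M p v := by
    intro v k
    have e3 : k * q * c + v 3 = v 3 + c * q * k := by ring
    simp [F, e, hM, hc, r, ← mul_assoc, e3]
  refine ⟨{G | ∃ v, Rep L G v}, ⟨?_, ?_⟩, x, ⟨_, hx⟩, ⟨hq, q, hq, ?_⟩, ?_⟩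
  · rintro G ⟨v, hv⟩ H ⟨w, hw⟩
    exact ⟨_, rep_add _ _ _ _ hv hw⟩
  · rintro ⟨n, f⟩ ⟨v, hv⟩ K ⟨i, rfl⟩
    obtain ⟨w, _, b⟩ := hv.1 i
    exact ⟨w, b⟩
  · rintro X ⟨w, hw⟩
    rw [outcome hne h _ _ (rep_add _ _ _ _ (rep_mul hx _) hw),
      outcome hne h _ _ (rep_add _ _ _ _ (rep_mul hx _) hw)]
    have a := per w 2
    have b := per w 1
    rw [two_mul] at a
    rw [one_mul] at b
    rw [a, b]
  · rintro q' ⟨h1, m, _, h2⟩
    by_contra hlt
    obtain ⟨j, _, hj⟩ := hmin q' (by omega) h1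
    obtain ⟨X, hX⟩ := rep_all hL ((m * (q - 1)) • c • e 3 + ![0, 0, 0, j])
    have := h2 X ⟨_, hX⟩
    rw [outcome hne h _ _ (rep_add _ _ _ _ (rep_mul hx _) hX),
      outcome hne h _ _ (rep_add _ _ _ _ (rep_mul hx _) hX)] at this
    obtain ⟨t, rfl⟩ : ∃ t, q = t + 1 := ⟨q - 1, by omega⟩
    have v3 : ∀ y : ℕ, (![0, 0, 0, y] : V) = y • e 3 := by
      intro y; funext i; fin_cases i <;> simp [e]
    have a : (m + q') • c • e 3 + ((m * (t + 1 - 1)) • c • e 3 + ![0, 0, 0, j]) =
        (m * (t + 1)) • c • e 3 + ![0, 0, 0, c * q' + j] := by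
      simp only [v3, smul_smul, ← add_smul, Nat.add_sub_cancel]; congr 1; ring
    have b : m • c • e 3 + ((m * (t + 1 - 1)) • c • e 3 + ![0, 0, 0, j]) =
        (m * (t + 1)) • c • e 3 + ![0, 0, 0, j] := by
      simp only [v3, smul_smul, ← add_smul, Nat.add_sub_cancel]; congr 1; ring
    rw [a, b, per, per] at this
    exact hj (Bool.eq_iff_iff.2 this)

def L5 : Fin 4 → List V := ![[![0, 0, 0, 0]], [![0, 0, 0, 0], ![1, 0, 0, 0]],
  [![0, 1, 0, 0], ![0, 2, 0, 0], ![1, 2, 0, 0], ![1, 3, 0, 0]],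
  [![0, 0, 0, 0], ![1, 2, 0, 0], ![1, 0, 1, 0]]]

def L8 : Fin 4 → List V := ![[![0, 0, 0, 0]], [![0, 0, 0, 0], ![1, 0, 0, 0]],
  [![0, 0, 0, 0], ![0, 1, 0, 0], ![1, 1, 0, 0], ![0, 2, 0, 0]],
  [![0, 0, 0, 0], ![0, 1, 0, 0], ![0, 0, 1, 0]]]

def N5 : ℕ := 4431655730240890572795719171395224167822701081824700177942190806867507029348803028555838171563400682812208896657891602273298192378255115477093152240223053487830988142322708747496736227213552563900448344372065670523444204083195919521373001205845407855967059724552229940765133138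

def N8 : ℕ := 4894892899740902013927716605392221276324036817895486888006577696473873663662722381297338568472529914402531774934530005197670132916549329050169972211579619056108765266

theorem result : (∃ A : Set Game, Closed A ∧ ∃ x ∈ A, HasPeriod A x 5) ∧
    (∃ A : Set Game, Closed A ∧ ∃ x ∈ A, HasPeriod A x 8) :=
  ⟨main (L := L5) (N := N5) (M := ![0, 8, 5, 0]) (p := ![2, 2, 2, 10]) (by decide +kernel)
      (by decide +kernel) (chk_all (by decide +kernel) (by decide +kernel)) rfl 2 5 (by norm_num) rfl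
      (by decide +kernel),
    main (L := L8) (N := N8) (M := ![0, 5, 3, 0]) (p := ![2, 2, 2, 8]) (by decide +kernel)
      (by decide +kernel) (chk_all (by decide +kernel) (by decide +kernel)) rfl 1 8 (by norm_num) rfl
      (by decide +kernel)⟩

end Pool.Agent.Results.MP_bc0e65_co.Periods
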